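import Pool.Agent.Helper91.GU.StD

/-!
Project GU (MP_b1e6de_al), module D5: first stage of general position.
-/

set_option autoImplicit false

namespace Pool.Agent.Helper75.GU

open Pool.Agent.Helper91.GU Polynomial IsLocalRing

universe u

section

variable {n : Type} [Fintype n] [DecidableEq n] {A : Type u} [CommRing A]

private theorem rank1_D5 (v x y : n → A) (h : y ⬝ᵥ x = 0) : REq v (v + (v ⬝ᵥ x) • y) := by
  refine ⟨1 + Matrix.vecMulVec x y, ?_, ?_⟩
  · have h1 : (1 + Matrix.vecMulVec x y).det = 1 + y ⬝ᵥ x := by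
      rw [Matrix.vecMulVec_eq Unit, Matrix.det_one_add_replicateCol_mul_replicateRow]
    rw [h1, h, add_zero]
    exact isUnit_one
  · rw [Matrix.vecMul_add, Matrix.vecMul_one, Matrix.vecMul_vecMulVec]

private theorem trans_D5 {v w x : n → A} (h1 : REq v w) (h2 : REq w x) : REq v x := by
  obtain ⟨g, hg, rfl⟩ := h1
  obtain ⟨g', hg', rfl⟩ := h2
  refine ⟨g * g', ?_, ?_⟩
  · rw [Matrix.det_mul]
    exact hg.mul hg'
  · rw [Matrix.vecMul_vecMul]

private theorem um_D5 {v w : n → A} (h1 : REq v w) (h2 : Um v) : Um w := by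
  obtain ⟨g, hg, rfl⟩ := h1
  obtain ⟨y, hy⟩ := h2
  refine ⟨g⁻¹.mulVec y, ?_⟩
  rw [← Matrix.dotProduct_mulVec, Matrix.mulVec_mulVec, Matrix.mul_nonsing_inv _ hg,
    Matrix.one_mulVec, hy]

end

section

variable {A : Type u} [CommRing A]

/-- multiples of the entry `k` are added to all other entries -/
private theorem stepA_D5 {s : ℕ} (v₀ : A) (c : Fin (s + 1) → A) (k : Fin (s + 1)) (h : Fin (s + 1) → A)
    (a₀ : A) (hk : h k = 0) :
    REq (row v₀ c) (row (v₀ + a₀ * c k) (fun j => c j + h j * c k)) := by
  have := rank1_D5 (row v₀ c) (Pi.single (Sum.inr k) 1) (Sum.elim (fun _ => a₀) h) (by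
    rw [dotProduct_single_one]
    exact hk)
  convert this using 1
  ext i
  rw [dotProduct_single_one]
  rcases i with i | j
  · simp only [row, Sum.elim_inl, Pi.add_apply, Pi.smul_apply, smul_eq_mul, Sum.elim_inr]
    ring
  · simp only [row, Sum.elim_inr, Pi.add_apply, Pi.smul_apply, smul_eq_mul]
    ring

/-- a combination of the other entries is added to the entry `k` -/
private theorem stepB_D5 {s : ℕ} (v₀ : A) (c : Fin (s + 1) → A) (k : Fin (s + 1)) (w : A)
    (hw : w ∈ Ideal.span (Set.range (Fin.cons v₀ (fun l => c (k.succAbove l)) : Fin (s + 1) → A))) :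
    REq (row v₀ c) (row v₀ (Function.update c k (c k + w))) := by
  rw [Ideal.mem_span_range_iff_exists_fun] at hw
  obtain ⟨β, hβ⟩ := hw
  have hx : row v₀ c ⬝ᵥ (Sum.elim (fun _ => β 0)
      (k.insertNth (0 : A) (fun l => β l.succ) : Fin (s + 1) → A)) = w := by
    rw [← hβ, Fin.sum_univ_succ]
    unfold dotProduct
    rw [Fintype.sum_sum_type]
    simp only [row, Sum.elim_inl, Sum.elim_inr, Finset.univ_unique, Finset.sum_singleton,
      Fin.cons_zero, Fin.cons_succ]
    rw [Fin.sum_univ_succAbove _ k]
    simp only [Fin.insertNth_apply_same, Fin.insertNth_apply_succAbove, mul_zero, zero_add]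
    rw [mul_comm v₀]
    congr 1
    apply Finset.sum_congr rfl
    intro l _
    ring
  have := rank1_D5 (row v₀ c) (Sum.elim (fun _ => β 0)
      (k.insertNth (0 : A) (fun l => β l.succ) : Fin (s + 1) → A)) (Pi.single (Sum.inr k) 1) (by
    rw [single_one_dotProduct]
    simp only [Sum.elim_inr, Fin.insertNth_apply_same])
  rw [hx] at this
  convert this using 1
  ext i
  rcases i with i | j
  · simp [row]
  · simp only [row, Sum.elim_inr, Pi.add_apply, Pi.smul_apply, smul_eq_mul]
    by_cases hj : j = k
    · subst hj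
      simp
    · rw [Function.update_of_ne hj, Pi.single_eq_of_ne (by simpa using hj)]
      ring

end

theorem hD5 (_hB7 : StB7.{u}) (hD4 : StD4.{u}) (hD5a : StD5a.{u}) (hD5b : StD5b.{u}) :
    StD5.{u} := by
  classical
  intro L _ _ _ s hm v₀ c hUm hv₀ hc hcl
  set I : Ideal L[X] := (maximalIdeal L).map C with hI
  set D : ℕ := v₀.natDegree + ∑ j, (c j).natDegree with hD
  have key : ∀ k : ℕ, k ≤ s → ∃ (v₀' : L[X]) (c' : Fin (s + 1) → L[X]),
      REq (row v₀ c) (row v₀' c') ∧ v₀' ∈ I ∧ (∀ j : Fin s, c' j.castSucc ∈ I) ∧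
      c' (Fin.last s) - 1 ∈ I ∧ v₀'.natDegree ≤ D ∧
      (∀ j : Fin (s + 1), k ≤ (j : ℕ) → (c' j).natDegree ≤ D) ∧
      (∀ j : Fin (s + 1), (j : ℕ) < k → D + 2 ≤ (c' j).natDegree) ∧
      ∀ p : Ideal L, p.IsPrime → (∀ j : Fin (s + 1), (j : ℕ) < k → (c' j).leadingCoeff ∈ p) →
        p = maximalIdeal L ∨ (k : ℕ∞) ≤ p.height := by
    intro k
    induction k with
    | zero =>
      intro _
      refine ⟨v₀, c, ⟨1, by simp, by simp⟩, hv₀, hc, hcl, by omega, ?_, ?_, ?_⟩
      · intro j _
        have : (c j).natDegree ≤ ∑ j, (c j).natDegree :=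
          Finset.single_le_sum (f := fun j => (c j).natDegree) (fun _ _ => Nat.zero_le _)
            (Finset.mem_univ j)
        omega
      · intro j hj
        omega
      · intro p _ _
        right
        simp
    | succ k ih =>
      intro hks
      obtain ⟨v₁, c₁, hR, hv₁, hc₁, hl₁, hd₀, hdle, hdge, hp⟩ := ih (by omega)
      have hUm₁ : Um (row v₁ c₁) := um_D5 hR hUm
      set kk : Fin (s + 1) := ⟨k, by omega⟩ with hkk
      have hkk' : kk = Fin.castSucc ⟨k, by omega⟩ := rfl
      set g : L[X] := c₁ kk with hg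
      have hgI : g ∈ I := by rw [hg, hkk']; exact hc₁ _
      have hgD : g.natDegree ≤ D := hdle kk le_rfl
      set w₁ : Fin (s + 1) → L[X] := Fin.cons v₁ (fun l => c₁ (kk.succAbove l)) with hw₁
      have hspan : Ideal.span (insert g (Set.range w₁)) = ⊤ := by
        rw [Ideal.eq_top_iff_one]
        obtain ⟨y, hy⟩ := hUm₁
        rw [← hy]
        unfold dotProduct
        rw [Fintype.sum_sum_type]
        apply Ideal.add_mem
        · apply Ideal.sum_mem
          intro i _
          apply Ideal.mul_mem_right
          apply Ideal.subset_span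
          right
          exact ⟨0, by simp [hw₁, row]⟩
        · apply Ideal.sum_mem
          intro j _
          apply Ideal.mul_mem_right
          apply Ideal.subset_span
          by_cases hj : j = kk
          · left
            simp [row, hj, hg]
          · right
            obtain ⟨l, hl⟩ := Fin.exists_succAbove_eq hj
            exact ⟨l.succ, by simp [hw₁, row, hl]⟩
      obtain ⟨h, hh, hH⟩ := hD5a L (s + 1) g w₁ hgI hspan
      set H : Fin (s + 1) → L := kk.insertNth (0 : L) (fun l => h l.succ) with hHd
      have hHk : H kk = 0 := by rw [hHd, Fin.insertNth_apply_same]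
      have hHs : ∀ l, H (kk.succAbove l) = h l.succ := by
        intro l
        rw [hHd, Fin.insertNth_apply_succAbove]
      set v₂ : L[X] := v₁ + C (h 0) * g with hv₂
      set c₂ : Fin (s + 1) → L[X] := fun j => c₁ j + C (H j) * g with hc₂
      have hR₂ : REq (row v₁ c₁) (row v₂ c₂) :=
        stepA_D5 v₁ c₁ kk (fun j => C (H j)) (C (h 0)) (by rw [hHk, C_0])
      set w₂ : Fin (s + 1) → L[X] := Fin.cons v₂ (fun l => c₂ (kk.succAbove l)) with hw₂
      have hw₂e : ∀ l, w₂ l = w₁ l + C (h l) * g := by
        intro l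
        refine Fin.cases ?_ ?_ l
        · simp [hw₂, hw₁, hv₂]
        · intro l'
          simp only [hw₂, hw₁, hc₂, Fin.cons_succ, hHs]
      set J : Ideal L[X] := Ideal.span (Set.range w₂) with hJ
      have hJh : ∀ P : Ideal L[X], P.IsPrime → J ≤ P → ((s + 1 : ℕ) : ℕ∞) ≤ P.height := by
        intro P hP hJP
        apply hH P hP
        intro l
        rw [← hw₂e l]
        exact hJP (Ideal.subset_span ⟨l, rfl⟩)
      have hJl := hD4 L J (s + 1) hJh
      set 𝔞 : Ideal L := Ideal.span {x | ∃ j : Fin (s + 1), (j : ℕ) < k ∧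
        x = (c₁ j).leadingCoeff} with h𝔞
      obtain ⟨w, hwJ, hwI, hw0, hwD, hwp⟩ := hD5b L (s + 1) (by omega) hm J 𝔞 (D + 2) hJl
      set c₃ : Fin (s + 1) → L[X] := Function.update c₂ kk (c₂ kk + w) with hc₃
      have hR₃ : REq (row v₂ c₂) (row v₂ c₃) := stepB_D5 v₂ c₂ kk w hwJ
      have hc₂k : c₂ kk = g := by simp only [hc₂, hHk, C_0, zero_mul, add_zero, hg]
      have hCg : ∀ a : L, (C a * g).natDegree ≤ D := fun a =>
        (natDegree_C_mul_le a g).trans hgD
      have hdeg₃k : (c₃ kk).natDegree = w.natDegree := by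
        rw [hc₃, Function.update_self, hc₂k]
        exact natDegree_add_eq_right_of_natDegree_lt (by omega)
      have hlc₃k : (c₃ kk).leadingCoeff = w.leadingCoeff := by
        rw [hc₃, Function.update_self, hc₂k]
        exact leadingCoeff_add_of_degree_lt (degree_lt_degree (by omega))
      have hlt : ∀ j : Fin (s + 1), (j : ℕ) < k →
          (c₃ j).natDegree = (c₁ j).natDegree ∧ (c₃ j).leadingCoeff = (c₁ j).leadingCoeff := by
        intro j hj
        have hne : j ≠ kk := by
          intro e
          rw [e] at hj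
          simp [hkk] at hj
        have h1 := hdge j hj
        have h2 := hCg (H j)
        rw [hc₃, Function.update_of_ne hne]
        constructor
        · exact natDegree_add_eq_left_of_natDegree_lt (by omega)
        · exact leadingCoeff_add_of_degree_lt' (degree_lt_degree (by omega))
      refine ⟨v₂, c₃, trans_D5 hR (trans_D5 hR₂ hR₃), ?_, ?_, ?_, ?_, ?_, ?_, ?_⟩
      · exact I.add_mem hv₁ (I.mul_mem_left _ hgI)
      · intro j
        by_cases hj : j.castSucc = kk
        · rw [hj, hc₃, Function.update_self, hc₂k]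
          exact I.add_mem hgI hwI
        · rw [hc₃, Function.update_of_ne hj]
          exact I.add_mem (hc₁ j) (I.mul_mem_left _ hgI)
      · have hne : Fin.last s ≠ kk := by
          intro e
          have := congrArg Fin.val e
          simp [hkk] at this
          omega
        rw [hc₃, Function.update_of_ne hne]
        have : c₂ (Fin.last s) - 1 = (c₁ (Fin.last s) - 1) + C (H (Fin.last s)) * g := by
          simp only [hc₂]
          ring
        rw [this]
        exact I.add_mem hl₁ (I.mul_mem_left _ hgI)
      · exact natDegree_add_le_of_degree_le hd₀ (hCg _)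
      · intro j hj
        have hne : j ≠ kk := by
          intro e
          rw [e] at hj
          simp [hkk] at hj
        rw [hc₃, Function.update_of_ne hne]
        exact natDegree_add_le_of_degree_le (hdle j (by omega)) (hCg _)
      · intro j hj
        by_cases hjk : (j : ℕ) < k
        · rw [(hlt j hjk).1]
          exact hdge j hjk
        · have : j = kk := by
            apply Fin.ext
            simp only [hkk]
            omega
          rw [this, hdeg₃k]
          exact hwD
      · intro p hpp hpl
        by_cases hpm : p = maximalIdeal L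
        · exact Or.inl hpm
        right
        have h𝔞p : 𝔞 ≤ p := by
          rw [h𝔞, Ideal.span_le]
          rintro x ⟨j, hj, rfl⟩
          rw [← (hlt j hj).2]
          exact hpl j (by omega)
        obtain ⟨q, hq, hqp⟩ := Ideal.exists_minimalPrimes_le h𝔞p
        have hqP : q.IsPrime := hq.1.1
        have hqm : q ≠ maximalIdeal L := by
          intro e
          apply hpm
          rw [e] at hqp
          exact ((maximalIdeal.isMaximal L).eq_of_le hpp.ne_top hqp).symm
        have hqk : (k : ℕ∞) ≤ q.height := by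
          refine (hp q hqP ?_).resolve_left hqm
          intro j hj
          exact hq.1.2 (Ideal.subset_span ⟨j, hj, rfl⟩)
        rcases hqp.lt_or_eq with hlt' | heq
        · have h1 := Ideal.height_add_one_le_of_lt_of_isPrime hlt'
          calc ((k + 1 : ℕ) : ℕ∞) = (k : ℕ∞) + 1 := by push_cast; rfl
            _ ≤ q.height + 1 := by gcongr
            _ ≤ p.height := h1
        · have hwl : w.leadingCoeff ∈ q := by
            rw [heq, ← hlc₃k]
            exact hpl kk (by simp [hkk])
          have h1 : ((s + 1 : ℕ) : ℕ∞) ≤ q.height := by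
            by_contra hcon
            exact hwp q hq hqm (not_le.1 hcon) hwl
          rw [← heq]
          refine le_trans ?_ h1
          exact_mod_cast (by omega : k + 1 ≤ s + 1)
  obtain ⟨v₀', c', hR, hv₀', -, hl', hd₀, -, hdge, hp⟩ := key s le_rfl
  refine ⟨v₀', c', hR, hv₀', hl', ?_, ?_⟩
  · intro j
    have := hdge j.castSucc (by simp)
    omega
  · intro p hpp hpl
    apply hp p hpp
    intro j hj
    have : j = Fin.castSucc ⟨j, hj⟩ := rfl
    rw [this]
    exact hpl _

end Pool.Agent.Helper75.GU
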