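import Pool.Agent.Helper91.GU.StH

/-!
Project GU (MP_b1e6de_al), module H2: the homotopy of a graded algebra.
-/

set_option autoImplicit false

namespace Pool.Agent.Helper75.GU

open Pool.Agent.Helper91.GU Polynomial

universe u

section

variable {R : Type u} [CommRing R] {n : ℕ}

/-- the map `X_j ↦ X_j T` -/
private noncomputable def gam (R : Type u) [CommRing R] (n : ℕ) :
    MvPolynomial (Fin n) R →ₐ[R] (MvPolynomial (Fin n) R)[X] :=
  MvPolynomial.aeval (fun j => C (MvPolynomial.X j) * X)

private theorem gam_monomial (d : Fin n →₀ ℕ) (r : R) :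
    gam R n (MvPolynomial.monomial d r) = C (MvPolynomial.monomial d r) * X ^ d.degree := by
  rw [gam, MvPolynomial.aeval_monomial, MvPolynomial.monomial_eq, map_mul, mul_assoc]
  congr 1
  rw [Finsupp.prod, Finsupp.prod, map_prod, Finsupp.degree_apply, ← Finset.prod_pow_eq_pow_sum,
    ← Finset.prod_mul_distrib]
  refine Finset.prod_congr rfl ?_
  intro j _
  rw [mul_pow, map_pow]

private theorem gam_coeff (f : MvPolynomial (Fin n) R) (i : ℕ) :
    (gam R n f).coeff i = MvPolynomial.homogeneousComponent i f := by
  induction f using MvPolynomial.induction_on' with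
  | monomial d r =>
    rw [gam_monomial, Polynomial.coeff_C_mul, Polynomial.coeff_X_pow,
      MvPolynomial.homogeneousComponent_of_mem (m := i) (n := d.degree)
        (MvPolynomial.isHomogeneous_monomial r rfl)]
    split_ifs <;> simp
  | add p q hp hq =>
    rw [map_add, Polynomial.coeff_add, hp, hq, map_add]

private theorem gam_eval_one (f : MvPolynomial (Fin n) R) : (gam R n f).eval 1 = f := by
  have h : ((Polynomial.aeval (1 : MvPolynomial (Fin n) R)).restrictScalars R).comp (gam R n) =
      AlgHom.id R _ := by
    apply MvPolynomial.algHom_ext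
    intro j
    simp [gam]
  have h2 := congrArg (fun φ => φ f) h
  simpa [Polynomial.aeval_def, Polynomial.eval₂_eq_eval_map] using h2

private theorem gam_eval_zero (f : MvPolynomial (Fin n) R) :
    (gam R n f).eval 0 = MvPolynomial.C (MvPolynomial.constantCoeff f) := by
  rw [← Polynomial.coeff_zero_eq_eval_zero, gam_coeff, MvPolynomial.homogeneousComponent_zero]
  rfl

end

/-- H2. The homotopy of a graded algebra. -/
theorem hH2 : StH2.{u} := by
  intro R _ n A hA
  let φ : A[X] →+* (MvPolynomial (Fin n) R)[X] :=
    Polynomial.mapRingHom (A.val : A →+* MvPolynomial (Fin n) R)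
  have hφ : Function.Injective φ := by
    apply Polynomial.map_injective
    exact Subtype.val_injective
  have hmem : ∀ f : A, ∃ p : A[X], φ p = gam R n (f : MvPolynomial (Fin n) R) := by
    intro f
    have h1 : gam R n (f : MvPolynomial (Fin n) R) ∈
        Polynomial.lifts (A.val : A →+* MvPolynomial (Fin n) R) := by
      rw [Polynomial.lifts_iff_coeff_lifts]
      intro i
      rw [gam_coeff]
      exact ⟨⟨_, hA f f.2 i⟩, rfl⟩
    obtain ⟨p, hp⟩ := (Polynomial.mem_lifts _).mp h1
    exact ⟨p, hp⟩
  choose Γ hΓ using hmem
  have key : ∀ (p q : A[X]), φ p = φ q → p = q := fun p q h => hφ h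
  let Γ' : A →+* A[X] :=
    { toFun := Γ
      map_one' := by
        apply hφ
        rw [hΓ, map_one]
        simp
      map_mul' := by
        intro x y
        apply hφ
        rw [hΓ, map_mul, hΓ, hΓ]
        simp
      map_zero' := by
        apply hφ
        rw [hΓ, map_zero]
        simp
      map_add' := by
        intro x y
        apply hφ
        rw [hΓ, map_add, hΓ, hΓ]
        simp }
  refine ⟨Γ', (MvPolynomial.constantCoeff).comp (A.val : A →+* MvPolynomial (Fin n) R),
    ?_, ?_, ?_⟩
  · intro f
    apply Subtype.val_injective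
    have h1 : (A.val : A →+* MvPolynomial (Fin n) R) ((Γ f).eval 1) =
        (φ (Γ f)).eval 1 := by
      rw [Polynomial.coe_mapRingHom, Polynomial.eval_one_map]
    have h2 : (φ (Γ f)).eval 1 = (f : MvPolynomial (Fin n) R) := by
      rw [hΓ, gam_eval_one]
    exact h1.trans h2
  · intro f
    apply Subtype.val_injective
    have h1 : (A.val : A →+* MvPolynomial (Fin n) R) ((Γ f).eval 0) =
        (φ (Γ f)).eval 0 := by
      rw [Polynomial.coe_mapRingHom, Polynomial.eval_zero_map]
    have h2 : (φ (Γ f)).eval 0 =
        MvPolynomial.C (MvPolynomial.constantCoeff (f : MvPolynomial (Fin n) R)) := by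
      rw [hΓ, gam_eval_zero]
    exact h1.trans h2
  · intro r
    apply hφ
    have h1 : φ (Γ (algebraMap R A r)) = gam R n (algebraMap R (MvPolynomial (Fin n) R) r) := by
      rw [hΓ]
      rfl
    have h2 : φ (C (algebraMap R A r)) = C (algebraMap R (MvPolynomial (Fin n) R) r) := by
      rw [Polynomial.coe_mapRingHom, Polynomial.map_C]
      rfl
    have h3 : gam R n (algebraMap R (MvPolynomial (Fin n) R) r) =
        C (algebraMap R (MvPolynomial (Fin n) R) r) := by
      rw [AlgHom.commutes]
      rfl
    exact h1.trans (h3.trans h2.symm)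

end Pool.Agent.Helper75.GU
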