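import Pool.Agent.Helper91.GU.StD
import Pool.Agent.Helper91.GU.StF

/-!
Project GU (MP_b1e6de_al), module S: assembly of Theorem S.
-/

set_option autoImplicit false

namespace Pool.Agent.Helper75.GU

open Pool.Agent.Helper91.GU Polynomial IsLocalRing

universe u

private theorem field_S (hS0 : StS0.{u}) (L : Type u) [CommRing L] (h : IsField L) (n : Type)
    [Fintype n] [DecidableEq n] (i₀ : n) (hj : ∃ j : n, j ≠ i₀) (v : n → L[X]) (hv : Um v) :
    EEq v (Pi.single i₀ 1) := by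
  let _ : Field L := h.toField
  exact hS0 L n i₀ hj v hv

private theorem row_S (A : Type u) [CommRing A] (r : ℕ) :
    (row (1 : A) (0 : Fin r → A)) = Pi.single (Sum.inl ()) 1 := by
  funext i
  rcases i with i | i
  · simp [row]
  · simp [row]

/-- S. THEOREM S (assembly). -/
theorem hS (hB7 : StB7.{u}) (hS0 : StS0.{u}) (hD9 : StD9.{u}) (hF : StF.{u}) : StS.{u} := by
  intro L _ _ _ s hs hdim hfac v d hum
  obtain ⟨h7, -⟩ := hB7 L[X] L[X] (RingHom.id _)
  obtain ⟨-, -, htrans, heeq, hpum, -, -⟩ := h7 (Unit ⊕ Fin (s + 1))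
  by_cases hm : maximalIdeal L = ⊥
  · have hfield : IsField L := IsLocalRing.isField_iff_maximalIdeal_eq.mpr hm
    have h1 := field_S hS0 L hfield (Unit ⊕ Fin (s + 1)) (Sum.inl ()) ⟨Sum.inr 0, by simp⟩
      (row v d) hum
    rw [row_S]
    exact heeq _ _ h1
  · obtain ⟨v₀, c, hreq, ⟨k₀, hk₀⟩, hdim'⟩ := hD9 L s hs hdim hm v d hum
    have hyk : ∃ (k₀ : ℕ) (a : ℕ → L), YK (idl c) k₀ a := by
      classical
      refine ⟨k₀, fun k => if h : k₀ ≤ k then (hk₀ k h).choose else 0, ?_⟩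
      intro k hk
      have h2 := (hk₀ k hk).choose_spec
      simpa only [dif_pos hk] using h2
    exact htrans _ _ _ hreq (hF L s hs hfac v₀ c (hpum _ _ hreq hum) hdim' hyk)

end Pool.Agent.Helper75.GU
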